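import Pool.Agent.Helper57.REC.Stmts3
import Pool.Agent.Helper28.REC.RCG

/-!
# REC: CBI, the local index at the places in `B`   [helper69]
-/

set_option autoImplicit false
set_option linter.unusedSectionVars false

open scoped Classical
open NumberField

namespace Pool.Agent.Helper69.REC

open Pool.Agent.Helper13.ZL (Pl q HasMean)
open _root_.REC

/-! ## Approximation -/

section approx

variable {K : Type} [Field K] [NumberField K]

theorem approx (S : Finset (Pl K)) (N : ℕ) (x : Pl K → K) (hx : ∀ P ∈ S, P.valuation K (x P) ≤ 1) :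
    ∃ a : 𝓞 K, ∀ P ∈ S, P.valuation K ((a : K) - x P) ≤ WithZero.exp (-(N : ℤ)) := by
  have h1 : ∀ P : Pl K, ∃ a : 𝓞 K, P ∈ S →
      P.valuation K ((a : K) - x P) ≤ WithZero.exp (-(N : ℤ)) := by
    intro P
    by_cases hP : P ∈ S
    · obtain ⟨a, ha⟩ := P.exists_valuation_sub_lt_of_integer (K := K) (hx P hP)
        (Units.mk0 (WithZero.exp (-(N : ℤ))) WithZero.exp_ne_zero)
      exact ⟨a, fun _ => ha.le⟩
    · exact ⟨0, fun h => absurd h hP⟩
  choose a ha using h1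
  obtain ⟨y, hy⟩ := IsDedekindDomain.exists_forall_sub_mem_ideal (s := S)
    (fun v : Pl K => v.asIdeal) (fun _ => N) (fun v _ => v.prime)
    (fun v _ w _ hvw h => hvw (IsDedekindDomain.HeightOneSpectrum.ext h)) (fun v => a v)
  refine ⟨y, fun P hP => ?_⟩
  have h2 : P.valuation K ((y : K) - (a P : K)) ≤ WithZero.exp (-(N : ℤ)) := by
    have h := (P.intValuation_le_pow_iff_mem (y - a P) N).2 (hy P hP)
    have h' : ((y : K) - (a P : K)) = algebraMap (𝓞 K) K (y - a P) := by simp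
    rw [h', P.valuation_of_algebraMap]
    exact h
  have h3 : (y : K) - x P = ((y : K) - (a P : K)) + ((a P : K) - x P) := by ring
  rw [h3]
  exact Valuation.map_add_le _ h2 (ha P hP)

theorem unif (S : Finset (Pl K)) (P : Pl K) (hP : P ∈ S) :
    ∃ u : Kˣ, P.valuation K (u : K) = WithZero.exp (-1 : ℤ) ∧
      ∀ P' ∈ S, P' ≠ P → P'.valuation K (u : K) = 1 := by
  obtain ⟨p, hp⟩ := P.valuation_exists_uniformizer' K
  obtain ⟨a, ha⟩ := approx S 2 (fun Q => if Q = P then (p : K) else 1) (by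
    intro Q _
    split_ifs with h
    · exact Q.valuation_le_one p
    · simp)
  have h1 : P.valuation K (a : K) = WithZero.exp (-1 : ℤ) := by
    have h := ha P hP
    rw [if_pos rfl] at h
    have h2 : P.valuation K ((a : K) - (p : K)) < P.valuation K (p : K) := by
      refine lt_of_le_of_lt h ?_
      rw [hp]
      exact WithZero.exp_lt_exp.2 (by norm_num)
    have h3 := Valuation.map_add_eq_of_lt_left (P.valuation K) h2
    rw [add_sub_cancel] at h3
    rw [h3, hp]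
  have h0 : (a : K) ≠ 0 := by
    intro h
    rw [h, map_zero] at h1
    exact WithZero.exp_ne_zero h1.symm
  refine ⟨Units.mk0 (a : K) h0, h1, fun Q hQ hne => ?_⟩
  have h := ha Q hQ
  rw [if_neg hne] at h
  have h2 : Q.valuation K ((a : K) - 1) < Q.valuation K (1 : K) := by
    refine lt_of_le_of_lt h ?_
    rw [map_one, ← WithZero.exp_zero]
    exact WithZero.exp_lt_exp.2 (by norm_num)
  have h3 := Valuation.map_add_eq_of_lt_left (Q.valuation K) h2
  rw [add_sub_cancel, map_one] at h3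
  exact h3

theorem ordv_mul (P : Pl K) (x y : Kˣ) : ordv P (x * y) = ordv P x + ordv P y := by
  have hx : P.valuation K (x : K) ≠ 0 := (Valuation.ne_zero_iff _).2 x.ne_zero
  have hy : P.valuation K (y : K) ≠ 0 := (Valuation.ne_zero_iff _).2 y.ne_zero
  unfold ordv
  rw [Units.val_mul, map_mul, WithZero.log_mul hx hy]
  ring

theorem ordv_eq_zero (P : Pl K) (x : Kˣ) : ordv P x = 0 ↔ P.valuation K (x : K) = 1 := by
  have hx : P.valuation K (x : K) ≠ 0 := (Valuation.ne_zero_iff _).2 x.ne_zero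
  unfold ordv
  constructor
  · intro h
    have h1 : WithZero.log (P.valuation K (x : K)) = 0 := by linarith
    rw [← WithZero.exp_log hx, h1, WithZero.exp_zero]
  · intro h
    rw [h, WithZero.log_one, neg_zero]

/-- the order as a homomorphism -/
noncomputable def ordH (P : Pl K) : Kˣ →* Multiplicative ℤ where
  toFun x := Multiplicative.ofAdd (ordv P x)
  map_one' := by
    have h : ordv P (1 : Kˣ) = 0 := (ordv_eq_zero P 1).2 (by simp)
    rw [h]
    rfl
  map_mul' x y := by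
    rw [ordv_mul]
    rfl

end approx

/-! ## Places and automorphisms -/

section places

variable {F L : Type} [Field F] [NumberField F] [Field L] [NumberField L] [Algebra F L]

theorem pl_ext (h3 : ∀ (τ : L ≃ₐ[F] L) (P : Pl L), ∃! P' : Pl L, ∀ x : L,
      P'.valuation L (τ x) = P.valuation L x) {P Q : Pl L}
    (h : ∀ x : L, Q.valuation L x = P.valuation L x) : Q = P := by
  refine (h3 1 P).unique (fun x => ?_) (fun x => ?_)
  · simpa using h x
  · simp

/-- the permutation of the places over `B` -/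
noncomputable def perm (h3 : ∀ (τ : L ≃ₐ[F] L) (P : Pl L), ∃! P' : Pl L, ∀ x : L,
      P'.valuation L (τ x) = P.valuation L x)
    (h4 : ∀ (τ : L ≃ₐ[F] L) (P P' : Pl L), (∀ x : L, P'.valuation L (τ x) = P.valuation L x) →
      ∀ v : Pl F, OvL v P → OvL v P') (B : Finset (Pl F)) (σ : L ≃ₐ[F] L) :
    Equiv.Perm {P : Pl L // ∃ v ∈ B, OvL v P} where
  toFun P := ⟨(h3 σ P).choose, by
    obtain ⟨v, hv, hP⟩ := P.2
    exact ⟨v, hv, h4 σ P _ (h3 σ P).choose_spec.1 v hP⟩⟩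
  invFun P := ⟨(h3 σ.symm P).choose, by
    obtain ⟨v, hv, hP⟩ := P.2
    exact ⟨v, hv, h4 σ.symm P _ (h3 σ.symm P).choose_spec.1 v hP⟩⟩
  left_inv P := by
    apply Subtype.ext
    refine pl_ext h3 fun x => ?_
    have h1 := (h3 σ.symm ((h3 σ P).choose)).choose_spec.1 (σ x)
    have h2 := (h3 σ P).choose_spec.1 x
    rw [AlgEquiv.symm_apply_apply] at h1
    exact h1.trans h2
  right_inv P := by
    apply Subtype.ext
    refine pl_ext h3 fun x => ?_
    have h1 := (h3 σ ((h3 σ.symm P).choose)).choose_spec.1 (σ.symm x)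
    have h2 := (h3 σ.symm P).choose_spec.1 x
    rw [AlgEquiv.apply_symm_apply] at h1
    exact h1.trans h2

theorem perm_spec (h3 : ∀ (τ : L ≃ₐ[F] L) (P : Pl L), ∃! P' : Pl L, ∀ x : L,
      P'.valuation L (τ x) = P.valuation L x)
    (h4 : ∀ (τ : L ≃ₐ[F] L) (P P' : Pl L), (∀ x : L, P'.valuation L (τ x) = P.valuation L x) →
      ∀ v : Pl F, OvL v P → OvL v P') (B : Finset (Pl F)) (σ : L ≃ₐ[F] L)
    (P : {P : Pl L // ∃ v ∈ B, OvL v P}) (x : L) :
    (perm h3 h4 B σ P).1.valuation L (σ x) = P.1.valuation L x :=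
  (h3 σ P).choose_spec.1 x

theorem perm_pow (h3 : ∀ (τ : L ≃ₐ[F] L) (P : Pl L), ∃! P' : Pl L, ∀ x : L,
      P'.valuation L (τ x) = P.valuation L x)
    (h4 : ∀ (τ : L ≃ₐ[F] L) (P P' : Pl L), (∀ x : L, P'.valuation L (τ x) = P.valuation L x) →
      ∀ v : Pl F, OvL v P → OvL v P') (B : Finset (Pl F)) (σ : L ≃ₐ[F] L) (k : ℕ)
    (P : {P : Pl L // ∃ v ∈ B, OvL v P}) (x : L) :
    (((perm h3 h4 B σ) ^ k) P).1.valuation L ((σ ^ k) x) = P.1.valuation L x := by
  induction k generalizing P x with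
  | zero => simp
  | succ k ih =>
    rw [pow_succ, pow_succ, Equiv.Perm.mul_apply, AlgEquiv.mul_apply, ih]
    exact perm_spec h3 h4 B σ P x

end places

/-! ## The quotient of the multiplicative group -/

section quot

variable {F L : Type} [Field F] [NumberField F] [Field L] [NumberField L] [Algebra F L]

/-- `σ` on the units -/
noncomputable def us (σ : L ≃ₐ[F] L) : Lˣ →* Lˣ := Units.map (σ : L →* L)

theorem us_apply (σ : L ≃ₐ[F] L) (x : Lˣ) : ((us σ x : Lˣ) : L) = σ (x : L) := rfl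

theorem us_mul (σ τ : L ≃ₐ[F] L) (x : Lˣ) : us (σ * τ) x = us σ (us τ x) := by
  ext
  simp [us_apply]

theorem us_stable {V : Subgroup Lˣ} {σ : L ≃ₐ[F] L} (hV : ∀ x ∈ V, us σ x ∈ V) (k : ℕ) :
    ∀ x ∈ V, us (σ ^ k) x ∈ V := by
  induction k with
  | zero =>
    intro x hx
    have : us (σ ^ 0) x = x := by ext; simp [us_apply]
    rw [this]
    exact hx
  | succ k ih =>
    intro x hx
    rw [pow_succ, us_mul]
    exact ih _ (hV x hx)

/-- the automorphism of the quotient -/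
noncomputable def qs (V : Subgroup Lˣ) (σ : L ≃ₐ[F] L) (h1 : ∀ x ∈ V, us σ x ∈ V)
    (h2 : ∀ x ∈ V, us σ⁻¹ x ∈ V) : MulAut (Lˣ ⧸ V) :=
  MonoidHom.toMulEquiv (QuotientGroup.map V V (us σ) h1) (QuotientGroup.map V V (us σ⁻¹) h2)
    (by
      ext x
      change ((us σ⁻¹ (us σ x) : Lˣ) : Lˣ ⧸ V) = (x : Lˣ ⧸ V)
      rw [← us_mul]
      congr 1
      ext
      simp [us_apply])
    (by
      ext x
      change ((us σ (us σ⁻¹ x) : Lˣ) : Lˣ ⧸ V) = (x : Lˣ ⧸ V)
      rw [← us_mul]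
      congr 1
      ext
      simp [us_apply])

theorem qs_mk (V : Subgroup Lˣ) (σ : L ≃ₐ[F] L) (h1 : ∀ x ∈ V, us σ x ∈ V)
    (h2 : ∀ x ∈ V, us σ⁻¹ x ∈ V) (x : Lˣ) :
    qs V σ h1 h2 (x : Lˣ ⧸ V) = ((us σ x : Lˣ) : Lˣ ⧸ V) := rfl

theorem qs_pow (V : Subgroup Lˣ) (σ : L ≃ₐ[F] L) (h1 : ∀ x ∈ V, us σ x ∈ V)
    (h2 : ∀ x ∈ V, us σ⁻¹ x ∈ V) (k : ℕ) (x : Lˣ) :
    ((qs V σ h1 h2) ^ k) (x : Lˣ ⧸ V) = ((us (σ ^ k) x : Lˣ) : Lˣ ⧸ V) := by
  induction k generalizing x with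
  | zero =>
    have : us (σ ^ 0) x = x := by ext; simp [us_apply]
    rw [this, pow_zero]
    rfl
  | succ k ih =>
    rw [pow_succ, pow_succ, us_mul, MulAut.mul_apply, qs_mk, ih]

theorem norm_prod [IsGalois F L] (σ : L ≃ₐ[F] L) (hσ : ∀ τ : L ≃ₐ[F] L, ∃ k : ℕ, τ = σ ^ k)
    (x : L) : algebraMap F L (Algebra.norm F x) =
      ∏ i ∈ Finset.range (Module.finrank F L), (σ ^ i) x := by
  have ho : orderOf σ = Module.finrank F L := by
    rw [← IsGalois.card_aut_eq_finrank]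
    refine orderOf_eq_card_of_forall_mem_zpowers fun τ => ?_
    obtain ⟨k, hk⟩ := hσ τ
    exact ⟨k, by simp [hk]⟩
  rw [Algebra.norm_eq_prod_automorphisms]
  have himg : (Finset.univ : Finset (L ≃ₐ[F] L)) =
      (Finset.range (Module.finrank F L)).image (fun i => σ ^ i) := by
    symm
    rw [Finset.eq_univ_iff_forall]
    intro τ
    obtain ⟨k, hk⟩ := hσ τ
    rw [Finset.mem_image]
    refine ⟨k % orderOf σ, ?_, ?_⟩
    · rw [Finset.mem_range, ← ho]
      exact Nat.mod_lt _ (orderOf_pos σ)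
    · rw [pow_mod_orderOf, hk]
  rw [himg, Finset.prod_image]
  intro i hi j hj hij
  rw [← ho] at hi hj
  exact pow_injOn_Iio_orderOf (by simpa using hi) (by simpa using hj) hij

end quot

/-! ## The lattice -/

section lat

variable {F L : Type} [Field F] [NumberField F] [Field L] [NumberField L] [Algebra F L]

theorem lift_spec {V : Subgroup Lˣ} {P : Pl L} (hV : ∀ x ∈ V, P.valuation L (x : L) = 1) :
    ∀ x ∈ V, ordH P x = 1 := by
  intro x hx
  change Multiplicative.ofAdd (ordv P x) = 1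
  rw [(ordv_eq_zero P x).2 (hV x hx)]
  rfl

/-- the order on the quotient -/
noncomputable def lq (V : Subgroup Lˣ) (P : Pl L) (hV : ∀ x ∈ V, P.valuation L (x : L) = 1)
    (a : Lˣ ⧸ V) : ℤ :=
  Multiplicative.toAdd (QuotientGroup.lift V (ordH P) (lift_spec hV) a)

theorem lq_mk (V : Subgroup Lˣ) (P : Pl L) (hV : ∀ x ∈ V, P.valuation L (x : L) = 1) (x : Lˣ) :
    lq V P hV (x : Lˣ ⧸ V) = ordv P x := rfl

theorem lq_mul (V : Subgroup Lˣ) (P : Pl L) (hV : ∀ x ∈ V, P.valuation L (x : L) = 1)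
    (a b : Lˣ ⧸ V) : lq V P hV (a * b) = lq V P hV a + lq V P hV b := by
  unfold lq
  rw [map_mul]
  rfl

/-- the classes of the units at the places in `S` are finite in number -/
theorem fin_ker (V : Subgroup Lˣ) (S : Finset (Pl L)) (N : ℕ)
    (hN : ∀ x : Lˣ, (∀ P ∈ S, P.valuation L ((x : L) - 1) ≤ WithZero.exp (-(N : ℤ))) → x ∈ V) :
    {a : Lˣ ⧸ V | ∃ x : Lˣ, (x : Lˣ ⧸ V) = a ∧ ∀ P ∈ S, P.valuation L (x : L) = 1}.Finite := by
  have hc : ∀ x : Lˣ, ∃ c : 𝓞 L, (∀ P ∈ S, P.valuation L (x : L) = 1) →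
      ∀ P ∈ S, P.valuation L ((c : L) - (x : L)) ≤ WithZero.exp (-(N : ℤ)) := by
    intro x
    by_cases hx : ∀ P ∈ S, P.valuation L (x : L) = 1
    · obtain ⟨c, hc⟩ := approx S N (fun _ => (x : L)) (fun P hP => (hx P hP).le)
      exact ⟨c, fun _ => hc⟩
    · exact ⟨0, fun h => absurd h hx⟩
  choose c hc using hc
  choose! r hr using fun (a : Lˣ ⧸ V) (ha : a ∈ {a : Lˣ ⧸ V | ∃ x : Lˣ, (x : Lˣ ⧸ V) = a ∧
    ∀ P ∈ S, P.valuation L (x : L) = 1}) => ha
  refine Set.Finite.of_injOn (f := fun a => Ideal.Quotient.mk (Pool.Agent.Helper28.RC.mm S N) (c (r a)))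
    (t := Set.univ) (fun _ _ => Set.mem_univ _) ?_ Set.finite_univ
  intro a ha b hb hab
  obtain ⟨ha1, ha2⟩ := hr a ha
  obtain ⟨hb1, hb2⟩ := hr b hb
  rw [← ha1, ← hb1]
  rw [QuotientGroup.eq]
  apply hN
  intro P hP
  have h1 : c (r a) - c (r b) ∈ P.asIdeal ^ N :=
    Pool.Agent.Helper28.RC.mm_le (Ideal.Quotient.eq.1 hab) P hP
  have h2 : P.valuation L ((c (r a) : L) - (c (r b) : L)) ≤ WithZero.exp (-(N : ℤ)) := by
    have h := (P.intValuation_le_pow_iff_mem (c (r a) - c (r b)) N).2 h1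
    have h' : ((c (r a) : L) - (c (r b) : L)) = algebraMap (𝓞 L) L (c (r a) - c (r b)) := by simp
    rw [h', P.valuation_of_algebraMap]
    exact h
  have h3 := hc (r a) ha2 P hP
  have h4 := hc (r b) hb2 P hP
  have h5 : ((r b : Lˣ) : L) - ((r a : Lˣ) : L) = ((c (r a) : L) - ((r a : Lˣ) : L)) +
      (-((c (r b) : L) - ((r b : Lˣ) : L)) + -((c (r a) : L) - (c (r b) : L))) := by ring
  have h6 : P.valuation L (((r b : Lˣ) : L) - ((r a : Lˣ) : L)) ≤ WithZero.exp (-(N : ℤ)) := by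
    rw [h5]
    refine Valuation.map_add_le _ h3 (Valuation.map_add_le _ ?_ ?_)
    · rw [Valuation.map_neg]
      exact h4
    · rw [Valuation.map_neg]
      exact h2
  have h7 : ((((r a)⁻¹ * r b : Lˣ) : L) - 1) = ((r a : Lˣ) : L)⁻¹ *
      (((r b : Lˣ) : L) - ((r a : Lˣ) : L)) := by
    have : ((r a : Lˣ) : L) ≠ 0 := (r a).ne_zero
    rw [Units.val_mul, Units.val_inv_eq_inv_val, mul_sub, inv_mul_cancel₀ this]
  rw [h7, map_mul, map_inv₀, ha2 P hP, inv_one, one_mul]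
  exact h6

theorem isLat (V : Subgroup Lˣ) (B : Finset (Pl F)) (S : Finset (Pl L))
    (hS : ∀ P : Pl L, P ∈ S ↔ ∃ v ∈ B, OvL v P) [Fintype {P : Pl L // ∃ v ∈ B, OvL v P}]
    (hV : ∀ P : {P : Pl L // ∃ v ∈ B, OvL v P}, ∀ x ∈ V, P.1.valuation L (x : L) = 1) (N : ℕ)
    (hN : ∀ x : Lˣ, (∀ P ∈ S, P.valuation L ((x : L) - 1) ≤ WithZero.exp (-(N : ℤ))) → x ∈ V) :
    IsLat (Lˣ ⧸ V) ({P : Pl L // ∃ v ∈ B, OvL v P} → ℝ)
      (fun a P => (lq V P.1 (hV P) a : ℝ)) := by
  constructor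
  · intro a b
    funext P
    rw [lq_mul]
    push_cast
    rfl
  · intro R
    have h1 : {a : Lˣ ⧸ V | ‖fun P : {P : Pl L // ∃ v ∈ B, OvL v P} =>
        (lq V P.1 (hV P) a : ℝ)‖ ≤ R} ⊆
        (fun a : Lˣ ⧸ V => fun P : {P : Pl L // ∃ v ∈ B, OvL v P} => lq V P.1 (hV P) a) ⁻¹'
          (Set.pi Set.univ fun _ => Set.Icc (-⌈R⌉) ⌈R⌉) := by
      intro a ha P _
      have h := norm_le_pi_norm (fun P : {P : Pl L // ∃ v ∈ B, OvL v P} =>
        (lq V P.1 (hV P) a : ℝ)) P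
      have h2 : |(lq V P.1 (hV P) a : ℝ)| ≤ R := by
        rw [Real.norm_eq_abs] at h
        exact h.trans ha
      rw [abs_le] at h2
      constructor
      · have : (-⌈R⌉ : ℝ) ≤ (lq V P.1 (hV P) a : ℝ) := by
          have := Int.le_ceil R
          linarith
        exact_mod_cast this
      · have : (lq V P.1 (hV P) a : ℝ) ≤ (⌈R⌉ : ℝ) := h2.2.trans (Int.le_ceil R)
        exact_mod_cast this
    refine Set.Finite.subset (Set.Finite.preimage' (Set.Finite.pi fun _ => Set.finite_Icc _ _)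
      ?_) h1
    intro b _
    by_cases hb : ∃ a0 : Lˣ ⧸ V, (fun P : {P : Pl L // ∃ v ∈ B, OvL v P} =>
      lq V P.1 (hV P) a0) = b
    · obtain ⟨a0, ha0⟩ := hb
      refine Set.Finite.subset ((fin_ker V S N hN).image (fun c => a0 * c)) ?_
      intro a ha
      refine ⟨a0⁻¹ * a, ?_, by simp⟩
      obtain ⟨x, hx⟩ := QuotientGroup.mk_surjective (a0⁻¹ * a)
      refine ⟨x, hx, fun P hP => ?_⟩
      rw [← ordv_eq_zero]
      obtain hP' := (hS P).1 hP
      have h2 := lq_mul V P (hV ⟨P, hP'⟩) a0 (a0⁻¹ * a)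
      rw [mul_inv_cancel_left] at h2
      have h3 : lq V P (hV ⟨P, hP'⟩) a = lq V P (hV ⟨P, hP'⟩) a0 := by
        have h4 := congrFun ha ⟨P, hP'⟩
        have h5 := congrFun ha0 ⟨P, hP'⟩
        exact h4.trans h5.symm
      rw [← lq_mk V P (hV ⟨P, hP'⟩) x]
      have hx' : ((x : Lˣ) : Lˣ ⧸ V) = a0⁻¹ * a := hx
      rw [hx']
      linarith
    · convert Set.finite_empty
      ext a
      simp only [Set.mem_preimage, Set.mem_singleton_iff, Set.mem_empty_iff_false, iff_false]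
      exact fun h => hb ⟨a, h⟩
  · rw [eq_top_iff]
    intro f _
    have hf : f = ∑ P : {P : Pl L // ∃ v ∈ B, OvL v P}, f P • (Pi.single P 1 : _ → ℝ) := by
      funext Q
      simp [Finset.sum_apply, Pi.single_apply]
    rw [hf]
    refine Submodule.sum_mem _ fun P _ => Submodule.smul_mem _ _ (Submodule.subset_span ?_)
    obtain ⟨u, hu1, hu2⟩ := unif S P.1 ((hS P.1).2 P.2)
    refine ⟨(u : Lˣ ⧸ V), ?_⟩
    funext Q
    change ((lq V Q.1 (hV Q) (u : Lˣ ⧸ V) : ℤ) : ℝ) = _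
    rw [lq_mk]
    by_cases hQ : Q = P
    · subst hQ
      rw [Pi.single_eq_same]
      unfold ordv
      rw [hu1]
      simp
    · rw [Pi.single_eq_of_ne hQ]
      have := (ordv_eq_zero Q.1 u).2 (hu2 Q.1 ((hS Q.1).2 Q.2) (fun h => hQ (Subtype.ext h)))
      rw [this]
      simp

end lat

/-! ## The theorem -/

theorem nm_apply {A : Type} [CommGroup A] (s : MulAut A) (n : ℕ) (a : A) :
    nm s n a = ∏ i ∈ Finset.range n, (s ^ i) a := by
  unfold nm
  rw [MonoidHom.finsetProd_apply]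
  rfl

theorem core {A : Type} [CommGroup A] {G M : Type} [CommGroup G] [CommGroup M] (mk : M →* A)
    (hmk : Function.Surjective mk) (j : G →* M) (Nn : M →* G) (s : MulAut A) (n : ℕ)
    (hfix : ∀ b : M, s (mk b) = mk b ↔ ∃ c, mk (j c) = mk b)
    (hnorm : ∀ x, mk (j (Nn x)) = nm s n (mk x)) :
    ∃ C : Subgroup G, (∀ y, Nn y ∈ C) ∧ C.index = h0 s n ∧ ∀ x : G, mk (j x) = 1 → x ∈ C := by
  have hker : (dd s).ker = (mk.comp j).range := by
    ext a
    obtain ⟨b, rfl⟩ := hmk a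
    rw [MonoidHom.mem_ker]
    have h1 : dd s (mk b) = s (mk b) / mk b := rfl
    rw [h1, div_eq_one, hfix b]
    rfl
  refine ⟨(nm s n).range.comap (mk.comp j), ?_, ?_, ?_⟩
  · intro y
    rw [Subgroup.mem_comap]
    exact ⟨mk y, (hnorm y).symm⟩
  · rw [Subgroup.index_comap, ← hker]
    rfl
  · intro x hx
    rw [Subgroup.mem_comap]
    have h : (mk.comp j) x = 1 := hx
    rw [h]
    exact one_mem _

theorem st_CBI (hVHI : ST_VHI) (hHERB : ST_HERB) (hPOV : ST_POV) : ST_CBI := by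
  intro F L _ _ _ _ _ _ σ hσ B
  obtain ⟨p1, p2, h3, h4, p5, p6, p7, p8⟩ := hPOV F L
  obtain ⟨V, v1, v2, ⟨N, v3⟩, v4⟩ := hVHI F L σ hσ B
  set n := Module.finrank F L with hn
  have hn0 : 0 < n := Module.finrank_pos
  -- the group
  have hV1 : ∀ x ∈ V, us σ x ∈ V := v1
  have hV2 : ∀ x ∈ V, us σ⁻¹ x ∈ V := by
    obtain ⟨k, hk⟩ := hσ σ⁻¹
    rw [hk]
    exact us_stable hV1 k
  have hσn : σ ^ n = 1 := by
    rw [hn, ← IsGalois.card_aut_eq_finrank]
    exact pow_card_eq_one'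
  let s := qs V σ hV1 hV2
  have hsn : s ^ n = 1 := by
    ext a
    obtain ⟨x, rfl⟩ := QuotientGroup.mk_surjective a
    change ((qs V σ hV1 hV2) ^ n) (x : Lˣ ⧸ V) = (x : Lˣ ⧸ V)
    rw [qs_pow, hσn]
    congr 1
  -- the places
  have hfin : {P : Pl L | ∃ v ∈ B, OvL v P}.Finite := by
    have h : {P : Pl L | ∃ v ∈ B, OvL v P} = ⋃ v ∈ B, {P : Pl L | OvL v P} := by
      ext P
      simp
    rw [h]
    refine Set.Finite.biUnion B.finite_toSet fun v _ => ?_
    exact @Set.toFinite _ {P : Pl L | OvL v P} (p2 v).1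
  have : Finite {P : Pl L // ∃ v ∈ B, OvL v P} := hfin
  let _ : Fintype {P : Pl L // ∃ v ∈ B, OvL v P} := Fintype.ofFinite _
  obtain ⟨S, hS⟩ : ∃ S : Finset (Pl L), ∀ P : Pl L, P ∈ S ↔ ∃ v ∈ B, OvL v P := by
    exact ⟨hfin.toFinset, fun P => by simp⟩
  let π := perm h3 h4 B σ
  have hπn : π ^ n = 1 := by
    ext1 P
    apply Subtype.ext
    refine pl_ext h3 fun x => ?_
    have h := perm_pow h3 h4 B σ n P x
    rw [hσn] at h
    exact h
  let pr : {P : Pl L // ∃ v ∈ B, OvL v P} → {v : Pl F // v ∈ B} := fun P =>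
    ⟨P.2.choose, P.2.choose_spec.1⟩
  have hpr : ∀ (P : {P : Pl L // ∃ v ∈ B, OvL v P}) (v : Pl F), OvL v P.1 ↔ (pr P).1 = v := by
    intro P v
    constructor
    · intro h
      exact (p1 P.1).unique P.2.choose_spec.2 h
    · intro h
      rw [← h]
      exact P.2.choose_spec.2
  have hOrb : IsOrb π pr := by
    constructor
    · intro v
      obtain ⟨P⟩ := (p2 v.1).2.1
      refine ⟨⟨P.1, v.1, v.2, P.2⟩, Subtype.ext ?_⟩
      exact (hpr _ _).1 P.2
    · intro P Q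
      constructor
      · intro h
        have hP : OvL (pr P).1 P.1 := (hpr P _).2 rfl
        have hQ : OvL (pr P).1 Q.1 := by
          rw [h]
          exact (hpr Q _).2 rfl
        obtain ⟨τ, hτ⟩ := p5 _ P.1 Q.1 hP hQ
        obtain ⟨k, rfl⟩ := hσ τ
        refine ⟨k, Subtype.ext ?_⟩
        refine (h3 (σ ^ k) P.1).unique (fun x => ?_) hτ
        exact perm_pow h3 h4 B σ k P x
      · rintro ⟨k, rfl⟩
        have hP : OvL (pr P).1 P.1 := (hpr P _).2 rfl
        have h := h4 (σ ^ k) P.1 ((π ^ k) P).1 (fun x => perm_pow h3 h4 B σ k P x) _ hP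
        exact (Subtype.ext ((hpr _ _).1 h)).symm
  -- the lattice
  have hV : ∀ P : {P : Pl L // ∃ v ∈ B, OvL v P}, ∀ x ∈ V, P.1.valuation L (x : L) = 1 := by
    rintro ⟨P, v, hv, hP⟩ x hx
    exact v2 x hx v hv P hP
  have hN : ∀ x : Lˣ, (∀ P ∈ S, P.valuation L ((x : L) - 1) ≤ WithZero.exp (-(N : ℤ))) → x ∈ V := by
    intro x hx
    exact v3 x fun v hv P hP => hx P ((hS P).2 ⟨v, hv, hP⟩)
  have hlat := isLat V B S hS hV N hN
  have heq : ∀ (a : Lˣ ⧸ V) (P : {P : Pl L // ∃ v ∈ B, OvL v P}),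
      (lq V (π P).1 (hV (π P)) (s a) : ℝ) = (lq V P.1 (hV P) a : ℝ) := by
    intro a P
    obtain ⟨x, rfl⟩ := QuotientGroup.mk_surjective a
    have h := perm_spec h3 h4 B σ P (x : L)
    have h' : ordv (π P).1 (us σ x) = ordv P.1 x := by
      unfold ordv
      rw [us_apply]
      exact congrArg (fun z => - WithZero.log z) h
    have h'' : lq V (π P).1 (hV (π P)) (s (x : Lˣ ⧸ V)) = lq V P.1 (hV P) (x : Lˣ ⧸ V) := h'
    exact congrArg _ h''
  obtain ⟨e1, e2, e3⟩ := hHERB (Lˣ ⧸ V) {P : Pl L // ∃ v ∈ B, OvL v P} {v : Pl F // v ∈ B} π pr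
    (fun a P => (lq V P.1 (hV P) a : ℝ)) s n hn0 hsn hπn hOrb heq hlat
  -- the fixed classes
  have hprod : (∏ y : {v : Pl F // v ∈ B}, n / Nat.card {x // pr x = y}) = ∏ v ∈ B, nv L v := by
    rw [← Finset.prod_coe_sort B (fun v => nv L v)]
    refine Finset.prod_congr rfl fun y _ => ?_
    unfold nv
    congr 1
    refine Nat.card_congr ⟨fun x => ⟨x.1.1, ?_⟩, fun P => ⟨⟨P.1, y.1, y.2, P.2⟩, ?_⟩, ?_, ?_⟩
    · rw [hpr x.1, x.2]
    · exact Subtype.ext ((hpr _ _).1 P.2)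
    · intro x
      rfl
    · intro P
      rfl
  obtain ⟨C, c1, c2, c3⟩ := core (A := Lˣ ⧸ V) (QuotientGroup.mk' V)
    (QuotientGroup.mk'_surjective V) (Units.map (algebraMap F L : F →* L)) (Nu F L) s n (by
      intro b
      constructor
      · intro h
        have h2 : ((us σ b / b : Lˣ) : Lˣ ⧸ V) = 1 := by
          have h1 : ((us σ b : Lˣ) : Lˣ ⧸ V) = (b : Lˣ ⧸ V) := h
          rw [QuotientGroup.eq_one_iff, div_eq_mul_inv, mul_comm]
          exact QuotientGroup.eq.1 h1.symm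
        rw [QuotientGroup.eq_one_iff] at h2
        obtain ⟨c, hc⟩ := v4 b h2
        refine ⟨c, ?_⟩
        refine QuotientGroup.eq.2 ?_
        rw [mul_comm, ← div_eq_mul_inv]
        exact hc
      · rintro ⟨c, hc⟩
        have h1 : us σ (Units.map (algebraMap F L : F →* L) c) =
            Units.map (algebraMap F L : F →* L) c := by
          ext
          simp [us_apply]
        have h2 : (QuotientGroup.mk' V) b =
          (QuotientGroup.mk' V) (Units.map (algebraMap F L : F →* L) c) := hc.symm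
        rw [h2]
        exact congrArg (fun z : Lˣ => (z : Lˣ ⧸ V)) h1) (by
      intro x
      have h1 : nm s n (x : Lˣ ⧸ V) = ∏ i ∈ Finset.range n, ((us (σ ^ i) x : Lˣ) : Lˣ ⧸ V) := by
        rw [nm_apply]
        refine Finset.prod_congr rfl fun i _ => ?_
        exact qs_pow V σ hV1 hV2 i x
      have h2 : Units.map (algebraMap F L : F →* L) (Nu F L x) =
          ∏ i ∈ Finset.range n, us (σ ^ i) x := by
        ext
        rw [Units.coe_prod]
        exact norm_prod σ hσ (x : L)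
      refine Eq.trans ?_ h1.symm
      rw [h2, map_prod]
      rfl)
  refine ⟨C, c1, ?_, ?_, N, ?_⟩
  · rw [c2]
    exact e1
  · rw [c2, e3, hprod]
    exact Nat.le_mul_of_pos_right _ (Nat.pos_of_ne_zero e2)
  · intro x hx
    apply c3
    have h1 : Units.map (algebraMap F L : F →* L) x ∈ V := by
      apply v3
      intro v hv P hP
      obtain ⟨e, he, hev⟩ := p7 v P hP
      have h2 : ((Units.map (algebraMap F L : F →* L) x : Lˣ) : L) - 1 =
          algebraMap F L ((x : F) - 1) := by simp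
      rw [h2, hev]
      calc v.valuation F ((x : F) - 1) ^ e ≤ WithZero.exp (-(N : ℤ)) ^ e :=
            pow_le_pow_left₀ zero_le (hx v hv) e
        _ = WithZero.exp (-(N : ℤ) * e) := by
            rw [← WithZero.exp_nsmul]
            congr 1
            simp [mul_comm]
        _ ≤ WithZero.exp (-(N : ℤ)) := by
            apply WithZero.exp_le_exp.2
            have : (1 : ℤ) ≤ e := by exact_mod_cast he
            nlinarith [Nat.zero_le N, (Int.natCast_nonneg N)]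
    exact (QuotientGroup.eq_one_iff _).2 h1

end Pool.Agent.Helper69.REC
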